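import Pool.Agent.Helper97.SZ.Goals

/-!
# Project SZ, packet SL1: the complement form
-/

set_option autoImplicit false

open Set Filter Topology Metric
open scoped ContDiff

namespace Pool.Agent.Helper82.SZ

open Pool.Agent.Helper91.SY Pool.Agent.Helper97.SZ

section
variable {E : Type} [NormedAddCommGroup E] [NormedSpace ℝ E]

/-- the form at infinity is symplectic -/
theorem symp_const [Nontrivial E] {B : E → E →L[ℝ] E →L[ℝ] ℝ} {B0 : E →L[ℝ] E →L[ℝ] ℝ} {R : ℝ}
    (hB : Symp B) (hF : Far R B B0) : Symp (fun _ : E => B0) := by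
  obtain ⟨x0, hx0⟩ := NormedSpace.exists_lt_norm ℝ E R
  have h0 : B x0 = B0 := hF x0 hx0.le
  refine ⟨contDiff_const, fun _ u => ?_, fun _ u v w => ?_, fun _ u hu => ?_⟩
  · show B0 u u = 0
    rw [← h0]
    exact hB.alt x0 u
  · simp
  · refine hB.nondeg x0 u fun v => ?_
    rw [h0]
    exact hu v

/-- a form which is locally one of two symplectic forms is symplectic -/
theorem symp_of_local {Z : E → E →L[ℝ] E →L[ℝ] ℝ} (hZ : ContDiff ℝ ∞ Z)
    (h : ∀ x, ∃ Θ : E → E →L[ℝ] E →L[ℝ] ℝ, Symp Θ ∧ Z =ᶠ[𝓝 x] Θ) : Symp Z := by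
  refine ⟨hZ, fun x u => ?_, fun x u v w => ?_, fun x u hu => ?_⟩
  · obtain ⟨Θ, hΘ, he⟩ := h x
    rw [he.eq_of_nhds]
    exact hΘ.alt x u
  · obtain ⟨Θ, hΘ, he⟩ := h x
    rw [he.fderiv_eq]
    exact hΘ.closed x u v w
  · obtain ⟨Θ, hΘ, he⟩ := h x
    refine hΘ.nondeg x u fun v => ?_
    rw [← he.eq_of_nhds]
    exact hu v

end

/-- SL1. -/
theorem sl1 (hPA : StmtPAL) (hPB : StmtPB) : StmtSL1 := by
  intro E _ _ _ _ B B0 R ψ U q lam hR hlam hq hB hF hU hRU hψ hinj hψ0 hdψ0 hpull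
  have hB0 := symp_const hB hF
  have hder : ∀ x ∈ U, Function.Injective (fderiv ℝ ψ x) := by
    intro x hx
    rw [injective_iff_map_eq_zero]
    intro w hw
    refine hB.nondeg (lam⁻¹ • (x - q)) w fun v => ?_
    rw [← hpull x hx, hw]
    simp
  obtain ⟨G, D0, R', hG, hGD, hRR', hR'U, hGψ⟩ := hPA E ψ U R hU hR hRU hψ hinj hder hψ0 hdψ0
  have hsy : ∀ x, ‖x‖ ≤ R' → G.symm x = ψ x := by
    intro x hx
    rw [Equiv.symm_apply_eq]
    exact (hGψ x hx).symm
  have hid : ∀ x, D0 ≤ ‖x‖ → G.symm x = x := by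
    intro x hx
    rw [Equiv.symm_apply_eq]
    exact (hGD x hx).symm
  obtain ⟨hσ, hP⟩ := hPB E G.symm (fun _ => B0) ⟨hG.2, hG.1⟩ hB0
  set σ : E → E →L[ℝ] E →L[ℝ] ℝ := pb (fun x => G.symm x) (fun _ => B0) with hσdef
  set Z : E → E →L[ℝ] E →L[ℝ] ℝ := fun x => σ x - (B (lam⁻¹ • (x - q)) - B0) with hZdef
  have hout : ∀ x : E, R ≤ ‖x‖ → Z x = σ x := by
    intro x hx
    have h1 : R ≤ ‖lam⁻¹ • (x - q)‖ := by
      rw [norm_smul, norm_inv, Real.norm_of_nonneg hlam.le, ← div_eq_inv_mul, le_div_iff₀ hlam]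
      have := norm_sub_norm_le x q
      nlinarith
    show σ x - (B (lam⁻¹ • (x - q)) - B0) = σ x
    rw [hF _ h1]
    ext u v
    simp
  have hin : ∀ x : E, ‖x‖ < R' → Z x = B0 := by
    intro x hx
    have h1 : (fun y => G.symm y) =ᶠ[𝓝 x] ψ := by
      have h2 : ∀ᶠ y in 𝓝 x, ‖y‖ < R' := continuous_norm.continuousAt.eventually_lt_const hx
      filter_upwards [h2] with y hy
      exact hsy y hy.le
    have h2 : σ x = B (lam⁻¹ • (x - q)) := by
      ext u v
      rw [← hpull x (hR'U x hx.le), ← h1.fderiv_eq]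
      rfl
    show σ x - (B (lam⁻¹ • (x - q)) - B0) = B0
    rw [h2]
    abel
  have hZs : ContDiff ℝ ∞ Z := by
    have h1 : ContDiff ℝ ∞ (fun x : E => B (lam⁻¹ • (x - q))) :=
      hB.smooth.comp ((contDiff_id.sub contDiff_const).const_smul _)
    exact hσ.smooth.sub (h1.sub contDiff_const)
  have hZ : Symp Z := by
    refine symp_of_local hZs fun x => ?_
    rcases lt_or_ge ‖x‖ R' with hx | hx
    · refine ⟨fun _ => B0, hB0, ?_⟩
      have h2 : ∀ᶠ y in 𝓝 x, ‖y‖ < R' := continuous_norm.continuousAt.eventually_lt_const hx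
      filter_upwards [h2] with y hy
      exact hin y hy
    · refine ⟨σ, hσ, ?_⟩
      have h2 : ∀ᶠ y in 𝓝 x, R < ‖y‖ :=
        continuous_norm.continuousAt.eventually_const_lt (hRR'.trans_le hx)
      filter_upwards [h2] with y hy
      exact hout y hy.le
  refine ⟨G, Z, max D0 R + 1, ?_, hG, ?_, ?_, hZ, ?_, ?_, ?_⟩
  · have := le_max_right D0 R
    linarith
  · intro x hx
    refine hGD x ?_
    have := le_max_left D0 R
    linarith
  · intro x hx
    exact hGψ x (hx.trans hRR'.le)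
  · intro x hx
    have h1 := le_max_left D0 R
    have h2 := le_max_right D0 R
    rw [hout x (by linarith)]
    have h3 : (fun y => G.symm y) =ᶠ[𝓝 x] id := by
      have h4 : ∀ᶠ y in 𝓝 x, D0 < ‖y‖ :=
        continuous_norm.continuousAt.eventually_const_lt (by linarith)
      filter_upwards [h4] with y hy
      exact hid y hy.le
    ext u v
    show B0 (fderiv ℝ (fun y => G.symm y) x u) (fderiv ℝ (fun y => G.symm y) x v) = B0 u v
    rw [h3.fderiv_eq, fderiv_id]
    rfl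
  · intro x hx
    exact hin x (hx.trans_lt hRR')
  · intro x u v
    have h1 : ins B0 B Z q lam x = σ x := by
      show σ x - (B (lam⁻¹ • (x - q)) - B0) + (B (lam⁻¹ • (x - q)) - B0) = σ x
      abel
    rw [h1]
    exact hP x u v

end Pool.Agent.Helper82.SZ
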